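import Pool.Agent.K1H32.FE.Stm

/-!
# The action of `SL(2, R)` on the circle of directions
-/

set_option autoImplicit false

open Filter Topology

namespace Pool.Agent.K1H67.FE

open Pool.Agent.K1H32.FE

lemma mv_mul (g h : SL) (v : ℝ × ℝ) : mv (g * h) v = mv g (mv h v) := by
  have e : ∀ i j : Fin 2, (g * h) i j = g i 0 * h 0 j + g i 1 * h 1 j := by
    intro i j
    rw [Matrix.SpecialLinearGroup.coe_mul, Matrix.mul_apply, Fin.sum_univ_two]
  unfold mv
  simp only [e]
  ext
  · simp only; ring
  · simp only; ring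

lemma mv_div (g : SL) (v : ℝ × ℝ) (c : ℝ) :
    mv g (v.1 / c, v.2 / c) = ((mv g v).1 / c, (mv g v).2 / c) := by
  unfold mv
  ext
  · simp only; ring
  · simp only; ring

lemma rr_div (g : SL) (v : ℝ × ℝ) {c : ℝ} (hc : 0 < c) : rr g (v.1 / c, v.2 / c) = rr g v / c := by
  unfold rr
  rw [mv_div]
  simp only
  rw [div_pow, div_pow, ← add_div, Real.sqrt_div (by positivity), Real.sqrt_sq hc.le]

lemma rr_mul (g h : SL) (v : ℝ × ℝ) : rr (g * h) v = rr g (mv h v) := by
  unfold rr
  rw [mv_mul]

lemma act_coe (g : SL) (v : K) :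
    ((act g v : K) : ℝ × ℝ) = ((mv g v).1 / rr g v, (mv g v).2 / rr g v) := rfl

theorem act_mul (g h : SL) : act (g * h) = (act g).comp (act h) := by
  ext1 v
  apply Subtype.ext
  rw [ContinuousMap.comp_apply, act_coe, act_coe, act_coe, mv_div, rr_div g _ (rr_pos h v),
    ← mv_mul, ← rr_mul]
  have h1 := (rr_pos h v).ne'
  have h2 := (rr_pos (g * h) v).ne'
  ext
  · simp only; field_simp
  · simp only; field_simp

theorem act_one : act 1 = ContinuousMap.id K := by
  ext1 v
  apply Subtype.ext
  have h1 : mv 1 (v : ℝ × ℝ) = v := by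
    unfold mv
    ext
    · simp
    · simp
  have h2 : rr 1 (v : ℝ × ℝ) = 1 := by
    unfold rr
    rw [h1, v.2, Real.sqrt_one]
  rw [act_coe, h1, h2, div_one, div_one]
  rfl

theorem continuous_act : Continuous fun p : SL × K => act p.1 p.2 := by
  have hc : ∀ i j : Fin 2, Continuous fun g : SL => g i j := fun i j =>
    continuous_subtype_val.matrix_elem i j
  have h1 : Continuous fun p : SL × K => mv p.1 (p.2 : ℝ × ℝ) := by
    unfold mv
    have hv : Continuous fun p : SL × K => ((p.2 : K) : ℝ × ℝ) :=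
      continuous_subtype_val.comp continuous_snd
    have hg : ∀ i j : Fin 2, Continuous fun p : SL × K => p.1 i j := fun i j =>
      (hc i j).comp continuous_fst
    have h00 := hg 0 0
    have h01 := hg 0 1
    have h10 := hg 1 0
    have h11 := hg 1 1
    exact ((h00.mul hv.fst).add (h01.mul hv.snd)).prodMk ((h10.mul hv.fst).add (h11.mul hv.snd))
  have h2 : Continuous fun p : SL × K => rr p.1 (p.2 : ℝ × ℝ) := by
    unfold rr
    exact ((h1.fst.pow 2).add (h1.snd.pow 2)).sqrt
  rw [Topology.IsInducing.subtypeVal.continuous_iff]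
  exact (h1.fst.div h2 fun p => (rr_pos p.1 p.2).ne').prodMk
    (h1.snd.div h2 fun p => (rr_pos p.1 p.2).ne')

/-- the action -/
theorem t_ACT : S_ACT := by
  refine ⟨act_mul, act_one, fun f => ?_⟩
  apply ContinuousMap.continuous_of_continuous_uncurry
  exact f.continuous.comp continuous_act

theorem compactK : CompactSpace K := by
  have h : IsCompact {v : ℝ × ℝ | v.1 ^ 2 + v.2 ^ 2 = 1} := by
    refine Metric.isCompact_of_isClosed_isBounded (isClosed_eq (by fun_prop) (by fun_prop)) ?_
    refine (Metric.isBounded_closedBall (x := (0 : ℝ × ℝ)) (r := 1)).subset ?_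
    intro v hv
    rw [Set.mem_ofPred_eq] at hv
    rw [mem_closedBall_zero_iff, Prod.norm_def, Real.norm_eq_abs, Real.norm_eq_abs]
    refine max_le ?_ ?_
    · rw [abs_le_one_iff_mul_self_le_one]; nlinarith
    · rw [abs_le_one_iff_mul_self_le_one]; nlinarith
  exact isCompact_iff_compactSpace.1 h

theorem nonemptyK : Nonempty K := ⟨⟨(1, 0), by norm_num⟩⟩

end Pool.Agent.K1H67.FE
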