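import Pool.Agent.K1H32.FE.Stm

/-!
# Bounded parts of discrete subgroups of `SL(2, R)`
-/

set_option autoImplicit false

open Filter Topology

namespace Pool.Agent.K1H67.FE

open Pool.Agent.K1H32.FE

lemma nsq_mul_le (g h : SL) : nsq (g * h) ≤ nsq g * nsq h := by
  have e : ∀ i j : Fin 2, (g * h) i j = g i 0 * h 0 j + g i 1 * h 1 j := by
    intro i j
    rw [Matrix.SpecialLinearGroup.coe_mul, Matrix.mul_apply, Fin.sum_univ_two]
  unfold nsq
  simp only [e]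
  have key : ∀ a b c d : ℝ, (a * b + c * d) ^ 2 ≤ (a ^ 2 + c ^ 2) * (b ^ 2 + d ^ 2) := by
    intro a b c d
    nlinarith [sq_nonneg (a * d - c * b)]
  have k00 := key (g 0 0) (h 0 0) (g 0 1) (h 1 0)
  have k01 := key (g 0 0) (h 0 1) (g 0 1) (h 1 1)
  have k10 := key (g 1 0) (h 0 0) (g 1 1) (h 1 0)
  have k11 := key (g 1 0) (h 0 1) (g 1 1) (h 1 1)
  have hsum : (g 0 0 ^ 2 + g 0 1 ^ 2 + g 1 0 ^ 2 + g 1 1 ^ 2) *
      (h 0 0 ^ 2 + h 0 1 ^ 2 + h 1 0 ^ 2 + h 1 1 ^ 2) =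
      (g 0 0 ^ 2 + g 0 1 ^ 2) * (h 0 0 ^ 2 + h 1 0 ^ 2) +
      (g 0 0 ^ 2 + g 0 1 ^ 2) * (h 0 1 ^ 2 + h 1 1 ^ 2) +
      (g 1 0 ^ 2 + g 1 1 ^ 2) * (h 0 0 ^ 2 + h 1 0 ^ 2) +
      (g 1 0 ^ 2 + g 1 1 ^ 2) * (h 0 1 ^ 2 + h 1 1 ^ 2) := by ring
  rw [hsum]
  linarith

lemma nsq_inv (g : SL) : nsq g⁻¹ = nsq g := by
  have h00 : (g⁻¹) 0 0 = g 1 1 := by
    rw [Matrix.SpecialLinearGroup.coe_inv, Matrix.adjugate_fin_two]; simp
  have h01 : (g⁻¹) 0 1 = -g 0 1 := by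
    rw [Matrix.SpecialLinearGroup.coe_inv, Matrix.adjugate_fin_two]; simp
  have h10 : (g⁻¹) 1 0 = -g 1 0 := by
    rw [Matrix.SpecialLinearGroup.coe_inv, Matrix.adjugate_fin_two]; simp
  have h11 : (g⁻¹) 1 1 = g 0 0 := by
    rw [Matrix.SpecialLinearGroup.coe_inv, Matrix.adjugate_fin_two]; simp
  unfold nsq
  rw [h00, h01, h10, h11]
  ring

lemma nsq_nonneg (g : SL) : 0 ≤ nsq g := by unfold nsq; positivity

lemma box_mem {C : ℝ} {g : SL} (hg : nsq g ≤ C) : (g : Matrix (Fin 2) (Fin 2) ℝ) ∈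
    (Set.pi Set.univ fun _ : Fin 2 => Set.pi Set.univ fun _ : Fin 2 =>
      Set.Icc (-(|C| + 1)) (|C| + 1)) := by
  have hsq : ∀ t : ℝ, t ^ 2 ≤ C → t ∈ Set.Icc (-(|C| + 1)) (|C| + 1) := by
    intro t ht
    have h2 : t ^ 2 ≤ (|C| + 1) ^ 2 := by
      have := le_abs_self C
      have h3 := abs_nonneg C
      nlinarith
    exact abs_le.1 (abs_le_of_sq_le_sq h2 (by positivity))
  unfold nsq at hg
  have p00 := sq_nonneg (g 0 0)
  have p01 := sq_nonneg (g 0 1)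
  have p10 := sq_nonneg (g 1 0)
  have p11 := sq_nonneg (g 1 1)
  have key : ∀ i j : Fin 2, (g i j) ^ 2 ≤ C := by
    intro i j
    fin_cases i <;> fin_cases j
    · show (g 0 0) ^ 2 ≤ C; linarith
    · show (g 0 1) ^ 2 ≤ C; linarith
    · show (g 1 0) ^ 2 ≤ C; linarith
    · show (g 1 1) ^ 2 ≤ C; linarith
  exact fun i _ j _ => hsq _ (key i j)

/-- bounded parts of `SL(2, R)` are compact -/
lemma compact_nsq (C : ℝ) : IsCompact {g : SL | nsq g ≤ C} := by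
  have hcl : IsClosed {A : Matrix (Fin 2) (Fin 2) ℝ | A.det = 1} :=
    isClosed_eq (continuous_id.matrix_det) continuous_const
  have hemb : Topology.IsClosedEmbedding (Subtype.val : SL → Matrix (Fin 2) (Fin 2) ℝ) :=
    hcl.isClosedEmbedding_subtypeVal
  set B : ℝ := |C| + 1 with hB
  have hbox : IsCompact (Set.pi Set.univ fun _ : Fin 2 => Set.pi Set.univ fun _ : Fin 2 =>
      Set.Icc (-B) B : Set (Matrix (Fin 2) (Fin 2) ℝ)) :=
    isCompact_univ_pi fun _ => isCompact_univ_pi fun _ => isCompact_Icc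
  have h1 : IsCompact ((Subtype.val : SL → Matrix (Fin 2) (Fin 2) ℝ) ⁻¹'
      (Set.pi Set.univ fun _ : Fin 2 => Set.pi Set.univ fun _ : Fin 2 => Set.Icc (-B) B)) :=
    hemb.isCompact_preimage hbox
  have hc : ∀ i j : Fin 2, Continuous fun g : SL => g i j := fun i j =>
    continuous_subtype_val.matrix_elem i j
  have hclosed : IsClosed {g : SL | nsq g ≤ C} := by
    refine isClosed_le ?_ continuous_const
    unfold nsq
    exact ((((hc 0 0).pow 2).add ((hc 0 1).pow 2)).add ((hc 1 0).pow 2)).add ((hc 1 1).pow 2)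
  have hsub : {g : SL | nsq g ≤ C} ⊆ ((Subtype.val : SL → Matrix (Fin 2) (Fin 2) ℝ) ⁻¹'
      (Set.pi Set.univ fun _ : Fin 2 => Set.pi Set.univ fun _ : Fin 2 => Set.Icc (-B) B)) := by
    intro g hg
    have hg' : nsq g ≤ C := hg
    exact box_mem hg'
  exact h1.of_isClosed_subset hclosed hsub

/-- bounded parts of discrete groups are finite -/
theorem t_FINB : S_FINB := by
  intro Γ hΓ C
  have hcl : IsClosed (Γ : Set SL) := Subgroup.isClosed_of_discrete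
  have hdisc : IsDiscrete (Γ : Set SL) := isDiscrete_iff_discreteTopology.mpr hΓ
  have h1 : IsCompact ((Γ : Set SL) ∩ {g : SL | nsq g ≤ C}) := (compact_nsq C).inter_left hcl
  exact h1.finite (hdisc.mono Set.inter_subset_left)

/-- the count -/
theorem t_COUNT (h : S_GEOM) : S_COUNT := by
  intro Γ hΓ R hR
  classical
  obtain ⟨C, hC⟩ := h R hR
  have hfin := t_FINB Γ hΓ (C * C)
  refine ⟨hfin.toFinset.card + 1, by omega, fun j u T hT => ?_⟩
  obtain ⟨h0, hh0⟩ := hC ((2 : ℝ) ^ j) u (one_le_pow₀ (by norm_num))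
  have hs : ((2 : ℝ) ^ j) ^ 2 = 4 ^ j := by rw [← pow_mul, mul_comm, pow_mul]; norm_num
  have hT' : ∀ g ∈ T, nsq (h0⁻¹ * g) ≤ C := by
    intro g hg
    obtain ⟨-, h1, h2, v, h3, h4⟩ := hT g hg
    refine hh0 g v ?_ ?_ h3 ?_
    · rw [hs]; exact h1
    · rw [hs]; rw [pow_succ] at h2; linarith
    · rw [hs]; exact h4
  rcases T.eq_empty_or_nonempty with rfl | ⟨g1, hg1⟩
  · simp
  have hcard : T.card ≤ hfin.toFinset.card := by
    refine Finset.card_le_card_of_injOn (fun g => g1⁻¹ * g) ?_ ?_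
    · intro g hg
      rw [Finset.mem_coe] at hg ⊢
      rw [Set.Finite.mem_toFinset]
      refine ⟨Γ.mul_mem (Γ.inv_mem (hT g1 hg1).1) (hT g hg).1, ?_⟩
      have e : g1⁻¹ * g = (h0⁻¹ * g1)⁻¹ * (h0⁻¹ * g) := by group
      simp only
      rw [e]
      have n1 := nsq_mul_le (h0⁻¹ * g1)⁻¹ (h0⁻¹ * g)
      rw [nsq_inv] at n1
      exact n1.trans (mul_le_mul (hT' g1 hg1) (hT' g hg) (nsq_nonneg _)
        ((nsq_nonneg _).trans (hT' g1 hg1)))
    · intro g _ g' _ hgg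
      exact mul_left_cancel hgg
  omega

end Pool.Agent.K1H67.FE
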