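import Pool.Agent.K1H32.FE.Stm

/-!
# Walks on virtually abelian groups have entropy zero
-/

set_option autoImplicit false

open Filter Topology

namespace Pool.Agent.K1H67.FE

open Pool.Agent.K1H32.FE

/-- the entropy is at most the logarithm of the number of values -/
lemma sum_negMulLog_le {α : Type} (T : Finset α) (q : α → ℝ) (h0 : ∀ a ∈ T, 0 ≤ q a)
    (h1 : ∑ a ∈ T, q a = 1) : ∑ a ∈ T, Real.negMulLog (q a) ≤ Real.log T.card := by
  have hne : T.Nonempty := by
    rw [Finset.nonempty_iff_ne_empty]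
    rintro rfl
    simp at h1
  have hn : (0 : ℝ) < T.card := by exact_mod_cast hne.card_pos
  have key : ∀ a ∈ T, Real.negMulLog (q a) ≤ q a * Real.log T.card + (1 / T.card - q a) := by
    intro a ha
    rcases (h0 a ha).eq_or_lt with h | h
    · rw [← h, Real.negMulLog_zero, zero_mul, zero_add, sub_zero]
      positivity
    · have h2 : Real.log (1 / (T.card * q a)) ≤ 1 / (T.card * q a) - 1 :=
        Real.log_le_sub_one_of_pos (by positivity)
      rw [one_div, Real.log_inv, Real.log_mul hn.ne' h.ne'] at h2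
      have h3 := mul_le_mul_of_nonneg_left h2 h.le
      have h4 : q a * (((T.card : ℝ) * q a)⁻¹ - 1) = 1 / T.card - q a := by
        field_simp
      rw [h4] at h3
      unfold Real.negMulLog
      linarith
  refine (Finset.sum_le_sum key).trans ?_
  rw [Finset.sum_add_distrib, ← Finset.sum_mul, Finset.sum_sub_distrib, h1, Finset.sum_const,
    nsmul_eq_mul, one_mul]
  have : (T.card : ℝ) * (1 / T.card) = 1 := by field_simp
  rw [this]
  linarith

lemma sum_wp {ι : Type} [Fintype ι] {m : ι → ℝ} (hm : IsPr m) (k : ℕ) :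
    ∑ w : Fin k → ι, wp m k w = 1 := by
  classical
  have h := Finset.prod_univ_sum (fun _ : Fin k => (Finset.univ : Finset ι)) (fun _ j => m j)
  rw [Fintype.piFinset_univ] at h
  unfold wp
  rw [← h]
  simp [hm.sum]

/-- representatives of the cosets -/
lemma exists_rep {G : Type} [Group G] (A Λ : Subgroup G) (hfin : (A.subgroupOf Λ).FiniteIndex) :
    ∃ (R : Finset G) (ρ : G → G), 1 ∈ R ∧ (∀ t ∈ R, t ∈ Λ) ∧
      ∀ g ∈ Λ, ρ g ∈ R ∧ g * (ρ g)⁻¹ ∈ A := by
  classical
  have hq : Finite (Λ ⧸ A.subgroupOf Λ) := Subgroup.finite_quotient_of_finiteIndex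
  have : Fintype (Λ ⧸ A.subgroupOf Λ) := Fintype.ofFinite _
  let u : Λ → Λ := fun g => (Quotient.out ((g⁻¹ : Λ) : Λ ⧸ A.subgroupOf Λ))
  have hu : ∀ g : Λ, (g * u g : Λ) ∈ A.subgroupOf Λ := by
    intro g
    have h1 : ((g⁻¹ : Λ) : Λ ⧸ A.subgroupOf Λ) = ((u g : Λ) : Λ ⧸ A.subgroupOf Λ) :=
      (QuotientGroup.out_eq' _).symm
    rw [QuotientGroup.eq, inv_inv] at h1
    exact h1
  let ρ : G → G := fun g => if h : g ∈ Λ then (((u ⟨g, h⟩)⁻¹ : Λ) : G) else 1
  let R : Finset G := insert 1 (Finset.univ.image fun c : Λ ⧸ A.subgroupOf Λ =>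
    (((Quotient.out c : Λ)⁻¹ : Λ) : G))
  refine ⟨R, ρ, Finset.mem_insert_self _ _, fun t ht => ?_, fun g hg => ⟨?_, ?_⟩⟩
  · rw [Finset.mem_insert] at ht
    rcases ht with rfl | ht
    · exact Λ.one_mem
    · obtain ⟨c, -, rfl⟩ := Finset.mem_image.1 ht
      exact ((Quotient.out c : Λ)⁻¹).2
  · have h1 : ρ g = (((u ⟨g, hg⟩)⁻¹ : Λ) : G) := dif_pos hg
    rw [h1]
    exact Finset.mem_insert_of_mem (Finset.mem_image.2 ⟨_, Finset.mem_univ _, rfl⟩)
  · have h1 : ρ g = (((u ⟨g, hg⟩)⁻¹ : Λ) : G) := dif_pos hg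
    have h2 := hu ⟨g, hg⟩
    rw [Subgroup.mem_subgroupOf] at h2
    rw [h1]
    push_cast
    rw [inv_inv]
    exact h2

/-- **Products of elements of a finite set in a virtually abelian group.** -/
theorem words {G : Type} [Group G] (A Λ : Subgroup G) (hAΛ : A ≤ Λ)
    (hA : ∀ a ∈ A, ∀ b ∈ A, a * b = b * a) (hfin : (A.subgroupOf Λ).FiniteIndex) (S : Finset G)
    (hS : ∀ s ∈ S, s ∈ Λ) : ∃ C D : ℕ, 1 ≤ C ∧ ∀ k : ℕ, ∃ T : Finset G, T.card ≤ C * (k + 1) ^ D ∧
      ∀ l : List G, l.length = k → (∀ s ∈ l, s ∈ S) → l.prod ∈ T := by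
  classical
  obtain ⟨R, ρ, h1R, hRΛ, hρ⟩ := exists_rep A Λ hfin
  let _ : CommGroup A := { (inferInstance : Group A) with
    mul_comm := fun a b => Subtype.ext (hA a a.2 b b.2) }
  -- the letters in `A`
  let w : G × G → A := fun p => if h : p.1 * p.2 * (ρ (p.1 * p.2))⁻¹ ∈ A then
    ⟨p.1 * p.2 * (ρ (p.1 * p.2))⁻¹, h⟩ else 1
  let W : Finset A := (R ×ˢ S).image w
  have hw : ∀ t ∈ R, ∀ s ∈ S, ((w (t, s) : A) : G) = t * s * (ρ (t * s))⁻¹ := by
    intro t ht s hs
    have h : t * s * (ρ (t * s))⁻¹ ∈ A := (hρ _ (Λ.mul_mem (hRΛ t ht) (hS s hs))).2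
    have h2 : w (t, s) = ⟨t * s * (ρ (t * s))⁻¹, h⟩ := dif_pos h
    rw [h2]
  have key : ∀ l : List G, (∀ s ∈ l, s ∈ S) → ∃ (c : A → ℕ) (t : G), t ∈ R ∧
      (∀ x, c x ≤ l.length) ∧ l.prod = ((∏ x ∈ W, x ^ c x : A) : G) * t := by
    intro l
    induction l using List.reverseRecOn with
    | nil =>
      intro _
      refine ⟨fun _ => 0, 1, h1R, fun _ => le_rfl, ?_⟩
      simp
    | append_singleton l s ih =>
      intro hl
      obtain ⟨c, t, ht, hc, hprod⟩ := ih fun s' hs' => hl s' (by simp [hs'])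
      have hs : s ∈ S := hl s (by simp)
      have hwW : w (t, s) ∈ W := Finset.mem_image_of_mem _ (Finset.mk_mem_product ht hs)
      refine ⟨fun x => c x + if x = w (t, s) then 1 else 0, ρ (t * s),
        (hρ _ (Λ.mul_mem (hRΛ t ht) (hS s hs))).1, fun x => ?_, ?_⟩
      · rw [List.length_append, List.length_singleton]
        have := hc x
        show c x + (if x = w (t, s) then 1 else 0) ≤ l.length + 1
        split_ifs <;> omega
      · rw [List.prod_append, List.prod_singleton, hprod]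
        have h3 : ∏ x ∈ W, x ^ (c x + if x = w (t, s) then 1 else 0) =
            (∏ x ∈ W, x ^ c x) * w (t, s) := by
          simp_rw [pow_add]
          rw [Finset.prod_mul_distrib]
          congr 1
          rw [Finset.prod_eq_single (w (t, s))]
          · rw [if_pos rfl, pow_one]
          · intro x _ hx
            rw [if_neg hx, pow_zero]
          · intro h; exact absurd hwW h
        rw [h3, Subgroup.coe_mul, hw t ht s hs]
        group
  refine ⟨R.card, W.card, Finset.card_pos.2 ⟨1, h1R⟩, fun k => ?_⟩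
  refine ⟨((Fintype.piFinset fun _ : W => Finset.range (k + 1)) ×ˢ R).image
    fun p => ((∏ x : W, (x : A) ^ p.1 x : A) : G) * p.2, ?_, ?_⟩
  · refine Finset.card_image_le.trans ?_
    rw [Finset.card_product, Fintype.card_piFinset]
    simp only [Finset.card_range, Finset.prod_const, Finset.card_univ, Fintype.card_coe]
    rw [mul_comm]
  · intro l hl hlS
    obtain ⟨c, t, ht, hc, hprod⟩ := key l hlS
    rw [Finset.mem_image]
    refine ⟨(fun x => c x, t), ?_, ?_⟩
    · rw [Finset.mem_product, Fintype.mem_piFinset]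
      refine ⟨fun x => ?_, ht⟩
      rw [Finset.mem_range]
      have := hc x
      simp only
      omega
    · simp only
      rw [hprod]
      congr 2
      exact Finset.prod_coe_sort W (fun x => x ^ c x)

/-- **Walks on virtually abelian groups have entropy zero.** -/
theorem t_POLY (h1 : S_WALK) (h2 : S_LAWF) : S_POLY := by
  intro ι G _ _ σ m A Λ hm hσ hAΛ hA hfin
  classical
  obtain ⟨C, D, hC, hT⟩ := words A Λ hAΛ hA hfin
    ((Finset.univ.filter fun i => m i ≠ 0).image σ) (fun s hs => by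
      obtain ⟨i, hi, rfl⟩ := Finset.mem_image.1 hs
      exact hσ i (Finset.mem_filter.1 hi).2)
  obtain ⟨-, -, -, hk, -⟩ := h1 ι G σ m hm
  have hbound : ∀ k : ℕ, Hw σ m k ≤ Real.log (C * (k + 1) ^ D) := by
    intro k
    obtain ⟨T, hTc, hTm⟩ := hT k
    have hsupp : ∀ w : Fin k → ι, wp m k w ≠ 0 → wx σ k w ∈ T := by
      intro w hw
      unfold wx
      refine hTm _ (by simp) fun s hs => ?_
      rw [List.mem_ofFn] at hs
      obtain ⟨i, rfl⟩ := hs
      refine Finset.mem_image_of_mem _ (Finset.mem_filter.2 ⟨Finset.mem_univ _, fun h0 => hw ?_⟩)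
      unfold wp
      exact Finset.prod_eq_zero (Finset.mem_univ i) h0
    have hwp0 : ∀ w : Fin k → ι, 0 ≤ wp m k w := fun w =>
      Finset.prod_nonneg fun i _ => hm.nonneg _
    have e1 : Hw σ m k = ∑ a ∈ T, Real.negMulLog (pr (wp m k) (wx σ k) a) :=
      h2 _ _ (wp m k) (wx σ k) T hsupp
    have e2 : ∑ a ∈ T, pr (wp m k) (wx σ k) a = 1 := by
      unfold pr
      rw [Finset.sum_comm, ← sum_wp hm k]
      refine Finset.sum_congr rfl fun w _ => ?_
      by_cases hw : wp m k w = 0
      · rw [hw]; simp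
      · rw [Finset.sum_ite_eq, if_pos (hsupp w hw)]
    rw [e1]
    have hTpos : 0 < T.card := by
      rw [Finset.card_pos, Finset.nonempty_iff_ne_empty]
      rintro rfl
      simp at e2
    refine (sum_negMulLog_le T _ (fun a _ => Finset.sum_nonneg fun w _ => by
      split_ifs
      · exact hwp0 w
      · exact le_rfl) e2).trans ?_
    apply Real.log_le_log (by exact_mod_cast hTpos)
    exact_mod_cast hTc
  -- the limit
  by_contra hcon
  rw [not_le] at hcon
  have hC0 : (0 : ℝ) < C := by exact_mod_cast hC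
  have hlim : Tendsto (fun k : ℕ => (Real.log C + D * Real.log ((k : ℝ) + 1)) / ((k : ℝ) + 1))
      atTop (𝓝 0) := by
    have t1 : Tendsto (fun k : ℕ => ((k : ℝ) + 1)) atTop atTop :=
      tendsto_atTop_add_const_right _ _ tendsto_natCast_atTop_atTop
    have t2 := (Real.tendsto_pow_log_div_mul_add_atTop 1 0 1 one_ne_zero).comp t1
    have t3 : Tendsto (fun k : ℕ => Real.log C / ((k : ℝ) + 1)) atTop (𝓝 0) :=
      tendsto_const_nhds.div_atTop t1
    have t4 := t3.add (t2.const_mul (D : ℝ))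
    rw [mul_zero, add_zero] at t4
    refine t4.congr fun k => ?_
    simp only [Function.comp, pow_one, one_mul, add_zero]
    ring
  have hge : ∀ᶠ k : ℕ in atTop, hav σ m / 2 ≤
      (Real.log C + D * Real.log ((k : ℝ) + 1)) / ((k : ℝ) + 1) := by
    filter_upwards [eventually_ge_atTop 1] with k hk1
    have h3 := (hk k).trans (hbound k)
    rw [Real.log_mul hC0.ne' (by positivity), Real.log_pow] at h3
    rw [le_div_iff₀ (by positivity)]
    have h4 : (1 : ℝ) ≤ k := by exact_mod_cast hk1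
    nlinarith
  obtain ⟨k, hk1, hk2⟩ := (hge.and (hlim.eventually_lt_const (half_pos hcon))).exists
  linarith

end Pool.Agent.K1H67.FE
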