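import Pool.Agent.K1H67.FE.Act

/-!
# Fine soft partitions of the circle; bad directions have small mass
-/

set_option autoImplicit false

open Filter Topology

namespace Pool.Agent.K1H67.FE

open Pool.Agent.K1H32.FE

/-- fine soft partitions exist -/
theorem t_POU : S_POU := by
  intro δ hδ
  have hK := compactK
  obtain ⟨t, -, htf, ht⟩ := finite_cover_balls_of_compact (isCompact_univ (X := K))
    (show 0 < δ / 2 by positivity)
  have : Fintype t := htf.fintype
  set q := Fintype.card t with hq
  let e : Fin q ≃ t := (Fintype.equivFin t).symm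
  let bump : Fin q → K → ℝ := fun i y => max 0 (δ / 2 - dist y (e i : K))
  have hb0 : ∀ i y, 0 ≤ bump i y := fun i y => le_max_left _ _
  have hbc : ∀ i, Continuous (bump i) := fun i =>
    continuous_const.max (continuous_const.sub (continuous_id.dist continuous_const))
  have hBpos : ∀ y, 0 < ∑ i, bump i y := by
    intro y
    obtain ⟨x, hx, hxy⟩ := Set.mem_iUnion₂.1 (ht (Set.mem_univ y))
    rw [Metric.mem_ball] at hxy
    have h1 : 0 < bump (e.symm ⟨x, hx⟩) y := by
      show 0 < max 0 (δ / 2 - dist y (e (e.symm ⟨x, hx⟩) : K))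
      rw [Equiv.apply_symm_apply]
      exact lt_max_of_lt_right (by linarith)
    exact Finset.sum_pos' (fun i _ => hb0 i y) ⟨_, Finset.mem_univ _, h1⟩
  have hBc : Continuous fun y => ∑ i, bump i y := continuous_finsetSum _ fun i _ => hbc i
  refine ⟨q, fun i => ⟨fun y => bump i y / ∑ i, bump i y, (hbc i).div hBc fun y => (hBpos y).ne'⟩,
    ⟨fun i y => ?_, fun y => ?_⟩, fun i x y hx hy => ?_⟩
  · exact div_nonneg (hb0 i y) (hBpos y).le
  · show ∑ a, bump a y / ∑ i, bump i y = 1
    rw [← Finset.sum_div]
    exact div_self (hBpos y).ne'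
  · have key : ∀ z, bump i z / ∑ j, bump j z ≠ 0 → dist z (e i : K) < δ / 2 := by
      intro z hz
      by_contra hcon
      rw [not_lt] at hcon
      apply hz
      have : bump i z = 0 := max_eq_left (by linarith)
      rw [this, zero_div]
    have h1 := key x hx
    have h2 := key y hy
    have h3 := dist_triangle_right x y (e i : K)
    linarith

/-- bad directions have small mass -/
theorem t_SMALL (h : S_ARC) : S_SMALL := by
  intro L hL hna ε hε
  obtain ⟨δ, hδ, hδL⟩ := hna (ε / 2) (by positivity)
  set R : ℝ := max 1 (8 / δ) with hR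
  have hR1 : 1 ≤ R := le_max_left _ _
  have hR0 : 0 < R := by linarith
  refine ⟨R, hR1, fun g ψ hψ hbad => ?_⟩
  obtain ⟨x, y, hxy⟩ := h R hR1 g
  set τ : ℝ := 4 / R with hτ
  have hτ0 : 0 < τ := by positivity
  have hτδ : 2 * τ ≤ δ := by
    have h1 : 8 / δ ≤ R := le_max_right _ _
    rw [div_le_iff₀ hδ] at h1
    rw [hτ, mul_div_assoc', div_le_iff₀ hR0]
    linarith
  let bp : K → C(K, ℝ) := fun x => ⟨fun v => max 0 (min 1 (2 - dist v x / τ)),
    continuous_const.max (continuous_const.min (continuous_const.sub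
      ((continuous_id.dist continuous_const).div_const _)))⟩
  have hbp : ∀ x v, bp x v = max 0 (min 1 (2 - dist v x / τ)) := fun _ _ => rfl
  have hb01 : ∀ x v, 0 ≤ bp x v ∧ bp x v ≤ 1 := by
    intro x v
    rw [hbp]
    exact ⟨le_max_left _ _, max_le zero_le_one (min_le_left _ _)⟩
  have hbL : ∀ x, L (bp x) ≤ ε / 2 := by
    intro x
    refine hδL x (bp x) (hb01 x) fun v hv => ?_
    by_contra hcon
    rw [not_lt] at hcon
    apply hv
    rw [hbp]
    have h1 : 2 ≤ dist v x / τ := by
      rw [le_div_iff₀ hτ0]; linarith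
    exact max_eq_left ((min_le_right _ _).trans (by linarith))
  have hone : ∀ x v, dist v x < τ → bp x v = 1 := by
    intro x v hv
    rw [hbp]
    have h1 : dist v x / τ ≤ 1 := by rw [div_le_one hτ0]; exact hv.le
    rw [min_eq_left (by linarith), max_eq_right zero_le_one]
  have hle : ∀ v, 0 ≤ (bp x + bp y - ψ) v := by
    intro v
    rw [ContinuousMap.sub_apply, ContinuousMap.add_apply]
    by_cases hv : ψ v = 0
    · rw [hv]
      linarith [(hb01 x v).1, (hb01 y v).1]
    · rcases hxy v (hbad v hv) with h1 | h1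
      · have := hone x v h1
        linarith [(hb01 y v).1, (hψ v).2]
      · have := hone y v h1
        linarith [(hb01 x v).1, (hψ v).2]
  have h1 := hL.nonneg _ hle
  rw [map_sub, map_add] at h1
  linarith [hbL x, hbL y]

end Pool.Agent.K1H67.FE
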